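import Pool.Agent.Helper85.MU.Stmts
import Pool.Agent.Helper81.AbMot.FE

/-!
# MU, module FRE: Frobenius elements exist, the Galois group is transitive on the primes over `p`
-/

set_option autoImplicit false
set_option maxHeartbeats 800000

open NumberField
open scoped Pointwise

namespace MU

section

variable (F : Type) [Field F] [NumberField F]

theorem fre_alg : Algebra.IsAlgebraic ℚ (AlgebraicClosure F) := by
  have h1 : Algebra.IsAlgebraic F (AlgebraicClosure F) := inferInstance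
  have h2 : Algebra.IsAlgebraic ℚ F := inferInstance
  exact Algebra.IsAlgebraic.trans ℚ F (AlgebraicClosure F)

theorem fre_isGalois : IsGalois ℚ (AlgebraicClosure F) := by
  have := fre_alg F
  have h1 : Normal ℚ (AlgebraicClosure F) := by
    have : IsAlgClosure ℚ (AlgebraicClosure F) := ⟨inferInstance, inferInstance⟩
    exact IsAlgClosure.normal ℚ (AlgebraicClosure F)
  exact ⟨⟩

end

/-- the prime `(p)` of `𝓞 ℚ` -/
theorem fre_span_norm (p : ℕ) : Ideal.absNorm (Ideal.span {(p : 𝓞 ℚ)}) = p := by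
  rw [Ideal.absNorm_span_natCast, RingOfIntegers.rank, Module.finrank_self, pow_one]

theorem fre_span_prime (p : ℕ) (hp : p.Prime) : (Ideal.span {(p : 𝓞 ℚ)}).IsPrime := by
  apply Ideal.isPrime_of_irreducible_absNorm
  rw [fre_span_norm]
  exact hp

theorem fre_span_ne (p : ℕ) (hp : p.Prime) : (Ideal.span {(p : 𝓞 ℚ)}) ≠ ⊥ := by
  intro h
  have h1 := fre_span_norm p
  rw [h, Ideal.absNorm_bot] at h1
  exact hp.ne_zero h1.symm

theorem fre_under {Ω : Type} [Field Ω] [Algebra ℚ Ω] (p : ℕ) (hp : p.Prime) (P : Ideal (𝓞 Ω))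
    (hP : P.IsPrime) (hpP : (p : 𝓞 Ω) ∈ P) : P.under (𝓞 ℚ) = Ideal.span {(p : 𝓞 ℚ)} := by
  have h1 : (Ideal.span {(p : 𝓞 ℚ)}).IsMaximal :=
    (fre_span_prime p hp).isMaximal (fre_span_ne p hp)
  symm
  apply h1.eq_of_le (Ideal.IsPrime.under (𝓞 ℚ) P).ne_top
  rw [Ideal.span_singleton_le_iff_mem, Ideal.under_def, Ideal.mem_comap, map_natCast]
  exact hpP

theorem st_FRE : ST_FRE := by
  intro F _ _ p hp
  have hG := fre_isGalois F
  refine ⟨?_, ?_⟩
  · obtain ⟨σ, 𝔓, h1, h2, h3⟩ := AbMot.wc_exists_frob (K := ℚ) (Ω := AlgebraicClosure F)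
      (Ideal.span {(p : 𝓞 ℚ)}) (fre_span_prime p hp) (fre_span_ne p hp)
    refine ⟨𝔓, ⟨h1, ?_⟩, σ, ?_⟩
    · have := (h2 (p : 𝓞 ℚ) (p : Zb F) (by simp)).1 (Ideal.mem_span_singleton_self _)
      exact this
    · rw [fre_span_norm] at h3
      exact h3
  · intro 𝔓 𝔔 h𝔓 h𝔔
    have := AbMot.wc_isInvariant (K := ℚ) (Ω := AlgebraicClosure F)
    have := AbMot.wc_comm (K := ℚ) (Ω := AlgebraicClosure F)
    let : TopologicalSpace (𝓞 (AlgebraicClosure F)) := ⊥
    have : DiscreteTopology (𝓞 (AlgebraicClosure F)) := ⟨rfl⟩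
    have : ContinuousSMul (GalQ F) (𝓞 (AlgebraicClosure F)) := by
      rw [continuousSMul_iff_stabilizer_isOpen]
      intro x
      have h := stabilizer_isOpen_of_isIntegral (K := ℚ) (L := AlgebraicClosure F)
        (x : AlgebraicClosure F)
      have e : (MulAction.stabilizer (GalQ F) x : Set (GalQ F))
          = (MulAction.stabilizer (GalQ F) (x : AlgebraicClosure F) : Set (GalQ F)) := by
        ext g
        constructor
        · intro hg
          exact congrArg (fun z : 𝓞 (AlgebraicClosure F) => (z : AlgebraicClosure F)) hg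
        · intro hg
          exact RingOfIntegers.ext hg
      rw [e]
      exact h
    let P : Ideal (𝓞 (AlgebraicClosure F)) := 𝔓
    let Q : Ideal (𝓞 (AlgebraicClosure F)) := 𝔔
    have hP : P.IsPrime := h𝔓.1
    have hQ : Q.IsPrime := h𝔔.1
    have hu : P.under (𝓞 ℚ) = Q.under (𝓞 ℚ) := by
      rw [fre_under p hp P hP h𝔓.2, fre_under p hp Q hQ h𝔔.2]
    obtain ⟨g, hg⟩ := Algebra.IsInvariant.exists_smul_of_under_eq_of_profinite
      (A := 𝓞 ℚ) (B := 𝓞 (AlgebraicClosure F)) (G := GalQ F) P Q hu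
    refine ⟨g, ?_⟩
    have key : ∀ x y : 𝓞 (AlgebraicClosure F), (y : AlgebraicClosure F) = g (x : AlgebraicClosure F) →
        (x ∈ P ↔ y ∈ Q) := by
      intro x y hxy
      have h1 : y = g • x := RingOfIntegers.ext hxy
      rw [h1, hg, Ideal.smul_mem_pointwise_smul_iff]
    exact fun x y hxy => key x y hxy

end MU
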