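import Pool.Agent.Helper22.MU.FRE
import Pool.Agent.Helper81.AbMot.Inrt

/-!
# MU, module INR: the inertia groups generate the absolute Galois group of `ℚ` topologically
-/

set_option autoImplicit false
set_option maxHeartbeats 800000

open NumberField Topology
open scoped Pointwise

namespace MU

/-- an everywhere unramified extension of `ℚ` is trivial -/
theorem inr_unram {L : Type} [Field L] [NumberField L]
    (h : ∀ (Q : Ideal (𝓞 L)) (_ : Q.IsPrime), Q ≠ ⊥ → Algebra.IsUnramifiedAt (𝓞 ℚ) Q) :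
    Module.finrank ℚ L = 1 := by
  have hD : differentIdeal (𝓞 ℚ) (𝓞 L) = ⊤ := by
    by_contra hne
    obtain ⟨M, hM, hMD⟩ := Ideal.exists_le_maximal _ hne
    have hM0 : M ≠ ⊥ := by
      intro h0
      rw [h0, le_bot_iff] at hMD
      exact differentIdeal_ne_bot hMD
    exact (not_dvd_differentIdeal_iff.2 (h M hM.isPrime hM0)) (Ideal.dvd_iff_le.2 hMD)
  have h1 : (discr L).natAbs = Ideal.absNorm (differentIdeal (𝓞 ℚ) (𝓞 L)) *
      (discr ℚ).natAbs ^ Module.finrank ℚ L :=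
    natAbs_discr_eq_absNorm_differentIdeal_mul_natAbs_discr_pow ℚ (𝓞 ℚ) L (𝓞 L)
  rw [hD, Ideal.absNorm_top, Rat.numberField_discr, Int.natAbs_one, one_pow, mul_one] at h1
  by_contra hne
  have h2 : 1 < Module.finrank ℚ L := by
    have : 0 < Module.finrank ℚ L := Module.finrank_pos
    omega
  have h3 := NumberField.abs_discr_gt_two h2
  rw [Int.abs_eq_natAbs, h1] at h3
  norm_num at h3

/-- A closed normal subgroup containing the inertia elements is everything if the base field has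
no everywhere unramified Galois extensions. -/
theorem inr_gen {K Ω : Type} [Field K] [NumberField K] [Field Ω] [Algebra K Ω] [IsGalois K Ω]
    (hK : ∀ (L : IntermediateField K Ω) (_ : FiniteDimensional K L) (_ : NumberField L)
      (_ : IsGalois K L), (∀ (Q : Ideal (𝓞 L)) (_ : Q.IsPrime), Q ≠ ⊥ →
        Algebra.IsUnramifiedAt (𝓞 K) Q) → L = ⊥)
    (N : Subgroup (Ω ≃ₐ[K] Ω)) (hNn : N.Normal) (hNc : IsClosed (N : Set (Ω ≃ₐ[K] Ω)))
    (hN : ∀ p : ℕ, p.Prime → ∀ 𝔓 : Ideal (integralClosure ℤ Ω), Over p 𝔓 →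
      ∀ σ : Ω ≃ₐ[K] Ω, CongPow 𝔓 1 σ → σ ∈ N) : N = ⊤ := by
  rw [eq_top_iff]
  intro g _
  by_contra hg
  have hopen : {x | g * x ∈ (N : Set (Ω ≃ₐ[K] Ω))ᶜ} ∈ 𝓝 (1 : Ω ≃ₐ[K] Ω) := by
    have h1 : IsOpen {x : Ω ≃ₐ[K] Ω | g * x ∈ (N : Set (Ω ≃ₐ[K] Ω))ᶜ} :=
      hNc.isOpen_compl.preimage (continuous_const_mul g)
    apply h1.mem_nhds
    simpa using hg
  obtain ⟨E, hE, hEn, hEs⟩ := (krullTopology_mem_nhds_one_iff_of_normal K Ω _).1 hopen
  have hEgal : IsGalois K E := ⟨⟩
  have hUn : E.fixingSubgroup.Normal := (InfiniteGalois.normal_iff_isGalois E).2 hEgal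
  set Y : Subgroup (Ω ≃ₐ[K] Ω) := N ⊔ E.fixingSubgroup with hYdef
  have hYn : Y.Normal := inferInstance
  have hYo : IsOpen (Y : Set (Ω ≃ₐ[K] Ω)) :=
    Subgroup.isOpen_mono le_sup_right E.fixingSubgroup_isOpen
  let H : ClosedSubgroup (Ω ≃ₐ[K] Ω) := ⟨Y, Y.isClosed_of_isOpen hYo⟩
  have hfix : (IntermediateField.fixedField Y).fixingSubgroup = Y :=
    InfiniteGalois.fixingSubgroup_fixedField H
  set L := IntermediateField.fixedField Y with hL
  obtain ⟨hfd, hgal⟩ := (InfiniteGalois.isOpen_and_normal_iff_finite_and_isGalois L).1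
    ⟨by rw [hfix]; exact hYo, by rw [hfix]; infer_instance⟩
  have hNF : NumberField L := NumberField.of_module_finite K L
  have hgal2 : IsGalois L Ω := IsGalois.tower_top_intermediateField L
  have hbot : L = ⊥ := by
    refine hK L hfd hNF hgal ?_
    intro Q hQ hQ0
    have hQm : Q.IsMaximal := Ideal.IsPrime.isMaximal hQ hQ0
    refine AbMot.in_unram Q hQ0 fun σ hσ => ?_
    obtain ⟨τ, P, hP, hPQ, hτ, hτP⟩ := AbMot.in_lift (F := K) (K := L) (Ω := Ω) Q σ hσ
    -- the rational prime below Q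
    obtain ⟨p, hp, hpQ⟩ : ∃ p : ℕ, p.Prime ∧ (p : 𝓞 L) ∈ Q := by
      have h1 : Ideal.absNorm Q ≠ 0 := mt Ideal.absNorm_eq_zero_iff.1 hQ0
      have h2 : (Ideal.absNorm Q : 𝓞 L) ∈ Q := Ideal.absNorm_mem Q
      have h3 : ∀ m : ℕ, m ≠ 0 → (m : 𝓞 L) ∈ Q → ∃ p : ℕ, p.Prime ∧ (p : 𝓞 L) ∈ Q := by
        intro m
        induction m using Nat.recOnMul with
        | zero => intro h; exact absurd rfl h
        | one =>
          intro _ h
          rw [Nat.cast_one] at h
          exact absurd ((Ideal.eq_top_iff_one Q).2 h) hQ.ne_top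
        | prime p hp => intro _ h; exact ⟨p, hp, h⟩
        | mul a b ha hb =>
          intro h0 h
          rw [Nat.cast_mul] at h
          rcases hQ.mem_or_mem h with h | h
          · exact ha (by rintro rfl; simp at h0) h
          · exact hb (by rintro rfl; simp at h0) h
      exact h3 _ h1 h2
    have hpP : (p : 𝓞 Ω) ∈ P := by
      have : (p : 𝓞 L) ∈ P.comap (algebraMap (𝓞 L) (𝓞 Ω)) := by
        rw [hPQ]; exact hpQ
      rw [Ideal.mem_comap, map_natCast] at this
      exact this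
    have key : ∀ x y : 𝓞 Ω, (y : Ω) = τ (x : Ω) → y - x ^ 1 ∈ P := by
      intro x y hxy
      have h1 : y = τ • x := RingOfIntegers.ext hxy
      rw [h1, pow_one]
      exact hτP x
    have hin : τ ∈ N := hN p hp P ⟨hP, hpP⟩ τ (fun x y hxy => key x y hxy)
    have hτY : τ ∈ L.fixingSubgroup := by
      rw [hfix]
      exact Subgroup.mem_sup_left hin
    have hfx := (IntermediateField.mem_fixingSubgroup_iff L τ).1 hτY
    ext x
    have h1 := hτ x
    have h2 : τ (algebraMap L Ω x) = algebraMap L Ω x := hfx x.1 x.2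
    rw [h2] at h1
    have h3 : σ x = x := ((algebraMap L Ω).injective h1).symm
    rw [h3]
    rfl
  have hYtop : Y = ⊤ := by
    rw [← hfix, hbot, IntermediateField.fixingSubgroup_bot]
  have hg' : g ∈ N ⊔ E.fixingSubgroup := by rw [← hYdef, hYtop]; trivial
  rw [Subgroup.mem_sup_of_normal_left] at hg'
  obtain ⟨y, hy, u, hu, hyu⟩ := hg'
  have h1 := hEs (inv_mem hu)
  apply h1
  have h2 : g * u⁻¹ = y := by rw [← hyu]; group
  change g * u⁻¹ ∈ (N : Set (Ω ≃ₐ[K] Ω))
  rw [h2]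
  exact hy

theorem st_INR : ST_INR := by
  intro F _ _ N hNn hNc hN
  have hG := fre_isGalois F
  refine inr_gen ?_ N hNn hNc hN
  intro L hfd hNF hgal h
  exact IntermediateField.finrank_eq_one_iff.1 (inr_unram h)

end MU
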