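import Pool.Agent.Helper22.MU.FRE
import Pool.Agent.Helper43.MU.Sub

/-!
# MU, module END: the endomorphisms of the rational representations are scalars
-/

set_option autoImplicit false
set_option maxHeartbeats 800000

open NumberField

namespace MU

section

variable {G K : Type} [Group G] [Field K] {n : ℕ}

theorem end_inj {A B : Matrix (Fin n) (Fin n) K} (h : A.mulVecLin = B.mulVecLin) : A = B := by
  apply (Matrix.toLin' (R := K)).injective
  rw [Matrix.toLin'_apply', Matrix.toLin'_apply']
  exact h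

/-- an endomorphism of an irreducible representation with an eigenvector is a scalar -/
theorem end_eig {r : G →* Matrix (Fin n) (Fin n) K} (hr : IsIrr r)
    (u : Matrix (Fin n) (Fin n) K) (hu : ∀ g, r g * u = u * r g) (v : Fin n → K) (hv : v ≠ 0)
    (a : K) (hav : u.mulVec v = a • v) : u = a • 1 := by
  have h := irr_stable hr (LinearMap.ker (u - a • 1).mulVecLin) (by
    intro g x hx
    rw [LinearMap.mem_ker, Matrix.mulVecLin_apply] at hx ⊢
    have h1 : (u - a • 1) * r g = r g * (u - a • 1) := by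
      rw [sub_mul, mul_sub, hu, smul_mul_assoc, mul_smul_comm, one_mul, mul_one]
    rw [Matrix.mulVec_mulVec, h1, ← Matrix.mulVec_mulVec, hx, Matrix.mulVec_zero])
  rcases h with h | h
  · exfalso
    apply hv
    have h1 : v ∈ LinearMap.ker (u - a • 1).mulVecLin := by
      rw [LinearMap.mem_ker, Matrix.mulVecLin_apply, Matrix.sub_mulVec, hav, Matrix.smul_mulVec,
        Matrix.one_mulVec, sub_self]
    rw [h] at h1
    exact (Submodule.mem_bot K).1 h1
  · rw [LinearMap.ker_eq_top] at h
    have h1 : u - a • 1 = 0 := by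
      apply end_inj
      rw [h, Matrix.mulVecLin_zero]
    exact sub_eq_zero.1 h1

/-- the last power of a regular nilpotent matrix has rank at most one -/
theorem end_rank (N : Matrix (Fin n) (Fin n) K) (h0 : N ^ n = 0) (hn : 1 ≤ n) :
    Module.finrank K (LinearMap.range (N ^ (n - 1)).mulVecLin) ≤ 1 := by
  have hstep : ∀ k, LinearMap.range (N ^ (k + 1)).mulVecLin ≤ LinearMap.range (N ^ k).mulVecLin := by
    intro k
    rw [pow_succ, Matrix.mulVecLin_mul]
    exact LinearMap.range_comp_le_range _ _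
  have hstab : ∀ k, LinearMap.range (N ^ (k + 1)).mulVecLin = LinearMap.range (N ^ k).mulVecLin →
      ∀ j, LinearMap.range (N ^ (k + j)).mulVecLin = LinearMap.range (N ^ k).mulVecLin := by
    intro k hk j
    induction j with
    | zero => rfl
    | succ j ih =>
      have h1 : N ^ (k + (j + 1)) = N * N ^ (k + j) := by rw [← pow_succ', add_assoc]
      have h2 : N ^ (k + 1) = N * N ^ k := by rw [← pow_succ']
      rw [h1, Matrix.mulVecLin_mul, LinearMap.range_comp, ih, ← LinearMap.range_comp,
        ← Matrix.mulVecLin_mul, ← h2, hk]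
  have hmain : ∀ k, k ≤ n → Module.finrank K (LinearMap.range (N ^ k).mulVecLin) ≤ n - k := by
    intro k
    induction k with
    | zero =>
      intro _
      have := Submodule.finrank_le (LinearMap.range (N ^ 0).mulVecLin)
      rw [Module.finrank_fin_fun] at this
      simpa using this
    | succ k ih =>
      intro hk
      have ih' := ih (by omega)
      by_cases he : LinearMap.range (N ^ (k + 1)).mulVecLin = LinearMap.range (N ^ k).mulVecLin
      · have h1 := hstab k he (n - k)
        rw [show k + (n - k) = n by omega, h0, Matrix.mulVecLin_zero, LinearMap.range_zero] at h1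
        rw [he, ← h1, finrank_bot]
        exact Nat.zero_le _
      · have h1 := Submodule.finrank_lt_finrank_of_lt (lt_of_le_of_ne (hstep k) he)
        omega
  have := hmain (n - 1) (by omega)
  omega

/-- commuting with a matrix of rank one in the commutant gives an eigenvector -/
theorem end_line (u T : Matrix (Fin n) (Fin n) K) (hT : T ≠ 0) (hTu : T * u = u * T)
    (hr : Module.finrank K (LinearMap.range T.mulVecLin) ≤ 1) :
    ∃ (v : Fin n → K) (a : K), v ≠ 0 ∧ u.mulVec v = a • v := by
  obtain ⟨x, hx⟩ : ∃ x, T.mulVec x ≠ 0 := by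
    by_contra hc
    push Not at hc
    apply hT
    apply end_inj
    rw [Matrix.mulVecLin_zero]
    apply LinearMap.ext
    intro y
    rw [Matrix.mulVecLin_apply, hc, LinearMap.zero_apply]
  obtain ⟨⟨v, hv⟩, hv2⟩ := finrank_le_one_iff.1 hr
  obtain ⟨c, hc⟩ := hv2 ⟨T.mulVec x, ⟨x, rfl⟩⟩
  obtain ⟨d, hd⟩ := hv2 ⟨T.mulVec (u.mulVec x), ⟨u.mulVec x, rfl⟩⟩
  have hc' : c • v = T.mulVec x := congrArg Subtype.val hc
  have hd' : d • v = T.mulVec (u.mulVec x) := congrArg Subtype.val hd
  have hc0 : c ≠ 0 := by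
    rintro rfl
    rw [zero_smul] at hc'
    exact hx hc'.symm
  refine ⟨T.mulVec x, d * c⁻¹, hx, ?_⟩
  rw [Matrix.mulVec_mulVec, ← hTu, ← Matrix.mulVec_mulVec, ← hd', ← hc', smul_smul, mul_assoc,
    inv_mul_cancel₀ hc0, mul_one]

/-- the kernel of a singular nonzero matrix of size two is a line -/
theorem end_two (u T : Matrix (Fin 2) (Fin 2) K) (hT : T ≠ 0) (hd : T.det = 0)
    (hTu : T * u = u * T) : ∃ (v : Fin 2 → K) (a : K), v ≠ 0 ∧ u.mulVec v = a • v := by
  apply end_line u T hT hTu
  obtain ⟨v, hv, hv2⟩ := Matrix.exists_mulVec_eq_zero_iff.2 hd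
  have h1 := LinearMap.finrank_range_add_finrank_ker T.mulVecLin
  rw [Module.finrank_fin_fun] at h1
  have h2 : 0 < Module.finrank K (LinearMap.ker T.mulVecLin) := by
    rw [Module.finrank_pos_iff_exists_ne_zero]
    refine ⟨⟨v, by rw [LinearMap.mem_ker, Matrix.mulVecLin_apply]; exact hv2⟩, ?_⟩
    intro h
    exact hv (congrArg Subtype.val h)
  omega

/-- an involution of size two with trace zero -/
theorem end_invol [CharZero K] (C : Matrix (Fin 2) (Fin 2) K) (hC : C * C = 1)
    (htr : C.trace = 0) : C - 1 ≠ 0 ∧ (C - 1).det = 0 := by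
  rw [Matrix.trace_fin_two] at htr
  have h11 := congrFun (congrFun hC 0) 0
  rw [Matrix.mul_apply, Fin.sum_univ_two, Matrix.one_apply_eq] at h11
  have hd : C 1 1 = - C 0 0 := by linear_combination htr
  constructor
  · intro h
    have h0 := congrFun (congrFun h 0) 0
    have h1 := congrFun (congrFun h 1) 1
    rw [Matrix.sub_apply, Matrix.one_apply_eq, Matrix.zero_apply] at h0 h1
    have h3 : (2 : K) = 0 := by linear_combination htr - h0 - h1
    exact two_ne_zero h3
  · rw [Matrix.det_fin_two]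
    simp only [Matrix.sub_apply, Matrix.one_apply_eq, ne_eq, Fin.isValue, one_ne_zero,
      not_false_eq_true, Matrix.one_apply_ne, zero_ne_one, sub_zero]
    rw [hd]
    linear_combination -h11

end

theorem st_END (tri : ST_TRI) (bal : ST_BAL) (irr : ST_IRR) (inv : ST_INV) : ST_END := by
  intro F _ _ S hS n w h M hM l _ u hu
  rcases Nat.eq_zero_or_pos n with rfl | hn
  · exact ⟨0, Subsingleton.elim _ _⟩
  have hirr := (irr F S hS n w h M hM).1 l
  suffices hs : ∃ (v : Fin n → ℚ_[l]) (a : ℚ_[l]), v ≠ 0 ∧ u.mulVec v = a • v by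
    obtain ⟨v, a, hv, hav⟩ := hs
    exact ⟨a, end_eig hirr u hu v hv a hav⟩
  rcases hM with ⟨p₀, hp₀, h1, h2⟩ | ⟨h1, h2, h3⟩
  · by_cases hl : l = p₀
    · subst hl
      obtain ⟨a, ha⟩ := h2.2 u hu
      refine ⟨fun _ => 1, a, ?_, ?_⟩
      · intro h0
        exact one_ne_zero (congrFun h0 ⟨0, hn⟩)
      · rw [ha, Matrix.smul_mulVec, Matrix.one_mulVec]
    · obtain ⟨⟨𝔓, h𝔓, -⟩, -⟩ := st_FRE F p₀ (hS p₀ hp₀)
      obtain ⟨c, hc⟩ := h1
      obtain ⟨τ, hτ, hτ1, -, -⟩ := hc l hl 𝔓 h𝔓
      have hτ2 := M.semistable l p₀ hp₀ (Ne.symm hl) 𝔓 h𝔓 τ hτ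
      refine end_line u _ hτ1 ?_ (end_rank _ hτ2 hn)
      have h4 : Commute (rat (M.ρ l) τ - 1) u := by
        change (rat (M.ρ l) τ - 1) * u = u * (rat (M.ρ l) τ - 1)
        rw [sub_mul, mul_sub, hu, one_mul, mul_one]
      exact h4.pow_left (n - 1)
  · subst h1
    obtain ⟨c, hc1, hc2⟩ := inv F h3
    obtain ⟨r, x, k, 𝔔, ht⟩ := tri F
    obtain ⟨J, hJ, hJ2, -⟩ := ((bal F r x k 𝔔 ht S hS 2 w h M).1 l 2 1 (fun g => rat (M.ρ l) g)
      ⟨⟨1, Matrix.one_mul 1⟩, fun g => by rw [mul_one, one_mul]⟩).1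
    have hJu : ∀ i, J i = Finset.univ := fun i => by
      rw [← Finset.card_eq_iff_eq_univ, hJ i, Fintype.card_fin]
    have hd : 0 < Module.finrank ℚ F := Module.finrank_pos
    have hw : h 0 + h 1 = w := by
      simp only [hJu, Fin.sum_univ_two, Finset.sum_const, Finset.card_univ, Fintype.card_fin,
        smul_eq_mul] at hJ2
      have : Module.finrank ℚ F * (2 * (h 0 + h 1)) = Module.finrank ℚ F * (2 * w) := by
        linarith
      have := Nat.eq_of_mul_eq_mul_left hd this
      omega
    have hne : h 0 ≠ h 1 := fun he => absurd (h2 he) (by decide)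
    have htr := M.conj (by
      intro j
      fin_cases j
      · change 2 * h 0 ≠ w
        omega
      · change 2 * h 1 ≠ w
        omega) l c hc1 hc2
    have hC : rat (M.ρ l) c * rat (M.ρ l) c = 1 := by rw [← map_mul, hc2, map_one]
    obtain ⟨h5, h6⟩ := end_invol _ hC htr
    refine end_two u _ h5 h6 ?_
    rw [sub_mul, mul_sub, hu, one_mul, mul_one]

end MU
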